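import Pool.Agent.H943Z.MV5

set_option autoImplicit false
open Matrix

namespace Pool.Agent.Results.MP_05553e_gt.CurvatureValuation

noncomputable section

/-- Convex bodies of `ℝⁿ` containing the origin in their interior (Hausdorff metric). -/
abbrev K0 (n : ℕ) : Type :=
  {K : ConvexBody (Fin n → ℝ) // (0 : Fin n → ℝ) ∈ interior (K : Set (Fin n → ℝ))}

/-- All matrix coefficients of `ρ` are polynomials in the entries of `g ∈ SL_n(ℝ)`. -/
def IsRationalRep {n m : ℕ}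
    (ρ : Representation ℝ (Matrix.SpecialLinearGroup (Fin n) ℝ) (Fin m → ℝ)) : Prop :=
  ∀ (l : (Fin m → ℝ) →ₗ[ℝ] ℝ) (w : Fin m → ℝ), ∃ P : MvPolynomial (Fin n × Fin n) ℝ,
    ∀ g : Matrix.SpecialLinearGroup (Fin n) ℝ,
      l (ρ g w) = MvPolynomial.eval (fun p => g.1 p.1 p.2) P

/-- `ρ` has a highest weight vector of weight `∑ μ i ε_i`: a nonzero vector fixed by all upper
unitriangular matrices on which `diag(t_1, …, t_n)` acts by `∏ t_i ^ μ i`. -/
def HasHighestWeight {n m : ℕ}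
    (ρ : Representation ℝ (Matrix.SpecialLinearGroup (Fin n) ℝ) (Fin m → ℝ))
    (μ : Fin n → ℕ) : Prop :=
  ∃ w : Fin m → ℝ, w ≠ 0 ∧
    (∀ g : Matrix.SpecialLinearGroup (Fin n) ℝ, (∀ i j, j < i → g.1 i j = 0) →
      (∀ i, g.1 i i = 1) → ρ g w = w) ∧
    ∀ g : Matrix.SpecialLinearGroup (Fin n) ℝ, (∀ i j, i ≠ j → g.1 i j = 0) →
      ρ g w = (∏ i, g.1 i i ^ μ i) • w

/-- The highest weight is `(p+q) ε_1 + q (ε_2 + ⋯ + ε_{n-1})` for some `p, q ≥ 0`. -/
def Admissible {n m : ℕ}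
    (ρ : Representation ℝ (Matrix.SpecialLinearGroup (Fin n) ℝ) (Fin m → ℝ)) : Prop :=
  ∃ p q : ℕ, HasHighestWeight ρ
    (fun i => if i.val = 0 then p + q else if i.val + 1 = n then 0 else q)

/-- Minkowski valuation: `Φ(K ∪ L) + Φ(K ∩ L) = Φ(K) + Φ(L)` whenever `K, L, K ∪ L ∈ K0`. -/
def IsMinkowskiValuation {n m : ℕ} (Φ : K0 n → ConvexBody (Fin m → ℝ)) : Prop :=
  ∀ K L U I : K0 n, (U.1 : Set (Fin n → ℝ)) = (K.1 : Set (Fin n → ℝ)) ∪ L.1 →
    (I.1 : Set (Fin n → ℝ)) = (K.1 : Set (Fin n → ℝ)) ∩ L.1 → Φ U + Φ I = Φ K + Φ L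

/-- Invariance: `Φ(gK) = ρ(g) Φ(K)`. -/
def IsInvariant {n m : ℕ}
    (ρ : Representation ℝ (Matrix.SpecialLinearGroup (Fin n) ℝ) (Fin m → ℝ))
    (Φ : K0 n → ConvexBody (Fin m → ℝ)) : Prop :=
  ∀ (g : Matrix.SpecialLinearGroup (Fin n) ℝ) (K M : K0 n),
    (M.1 : Set (Fin n → ℝ)) = (fun x => g.1 *ᵥ x) '' (K.1 : Set (Fin n → ℝ)) →
    (Φ M : Set (Fin m → ℝ)) = ρ g '' (Φ K : Set (Fin m → ℝ))

open Pool.Agent.H943Z.MV Pool.Agent.H943Z.MVR

def eqv : Wt ≃ₗ[ℝ] (Fin (Module.finrank ℝ Wt) → ℝ) := (Module.finBasis ℝ Wt).equivFun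

def rho : Representation ℝ G4 (Fin (Module.finrank ℝ Wt) → ℝ) where
  toFun k := eqv.conj (rho0 k)
  map_one' := by
    refine LinearMap.ext fun x => ?_
    simp [LinearEquiv.conj_apply]
  map_mul' a b := by
    refine LinearMap.ext fun x => ?_
    simp [LinearEquiv.conj_apply]

theorem rho_apply (k : G4) (x : Fin (Module.finrank ℝ Wt) → ℝ) :
    rho k x = eqv (rho0 k (eqv.symm x)) := rfl

def pt0 {m : ℕ} (x : Fin m → ℝ) : ConvexBody (Fin m → ℝ) :=
  ⟨{x}, convex_singleton x, isCompact_singleton, Set.singleton_nonempty x⟩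

theorem pt0_coe {m : ℕ} (x : Fin m → ℝ) : (pt0 x : Set (Fin m → ℝ)) = {x} := rfl

theorem pt0_add {m : ℕ} (x y : Fin m → ℝ) : pt0 x + pt0 y = pt0 (x + y) := by
  apply ConvexBody.ext
  rw [ConvexBody.coe_add, pt0_coe, pt0_coe, pt0_coe, Set.singleton_add_singleton]

theorem pt0_cont {m : ℕ} : Continuous (pt0 (m := m)) := by
  refine (LipschitzWith.of_dist_le_mul (K := 1) fun x y => ?_).continuous
  rw [← ConvexBody.hausdorffDist_coe, pt0_coe, pt0_coe]
  simp only [NNReal.coe_one, one_mul]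
  refine Metric.hausdorffDist_le_of_mem_dist dist_nonneg ?_ ?_
  · rintro a rfl; exact ⟨y, rfl, le_rfl⟩
  · rintro a rfl; exact ⟨x, rfl, (dist_comm _ _).le⟩

theorem rho_irred : rho.IsIrreducible := by
  have hne : (⊥ : Subrepresentation rho) ≠ ⊤ := by
    intro h
    have h1 : eqv ⟨phi0, psi_mem _ _⟩ ∈ (⊤ : Subrepresentation rho).toSubmodule := trivial
    rw [← h] at h1
    have h2 : eqv ⟨phi0, psi_mem _ _⟩ = 0 := h1
    exact phi0_ne (congrArg Subtype.val (eqv.map_eq_zero_iff.1 h2))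
  have : Nontrivial (Subrepresentation rho) := ⟨⊥, ⊤, hne⟩
  refine ⟨fun S => ?_⟩
  by_cases hS : S = ⊥
  · exact Or.inl hS
  right
  let M : Submodule ℝ (G4 → ℝ) := (S.toSubmodule.comap eqv.toLinearMap).map Wt.subtype
  have hM : M ≤ Wt := Submodule.map_subtype_le _ _
  have hinv : ∀ k, ∀ F ∈ M, R k F ∈ M := by
    rintro k _ ⟨F, hF, rfl⟩
    refine ⟨rho0 k F, ?_, rfl⟩
    have := S.apply_mem_toSubmodule k hF
    rw [rho_apply] at this
    simpa using this
  have hMne : M ≠ ⊥ := by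
    intro h
    apply hS
    apply Subrepresentation.toSubmodule_injective
    refine (Submodule.eq_bot_iff _).2 fun x hx => ?_
    have h1 : ((eqv.symm x : Wt) : G4 → ℝ) ∈ M := ⟨eqv.symm x, by simpa using hx, rfl⟩
    rw [h, Submodule.mem_bot] at h1
    have h2 : eqv.symm x = 0 := Subtype.ext h1
    simpa using h2
  have hle := irred M hM hinv hMne
  apply Subrepresentation.toSubmodule_injective
  refine Submodule.eq_top_iff'.2 fun x => ?_
  obtain ⟨F, hF, e⟩ := hle (eqv.symm x).2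
  have : F = eqv.symm x := Subtype.ext e
  subst this
  simpa using hF

/-- For `n = 4` there is an irreducible rational representation of `SL_4(ℝ)` of highest weight
`2ε_1 + 2ε_2`, not admissible, with a non-trivial invariant continuous Minkowski valuation. -/
theorem result : ∃ (m : ℕ)
    (ρ : Representation ℝ (Matrix.SpecialLinearGroup (Fin 4) ℝ) (Fin m → ℝ)),
    IsRationalRep ρ ∧ ρ.IsIrreducible ∧ HasHighestWeight ρ ![2, 2, 0, 0] ∧ ¬ Admissible ρ ∧
    ∃ Φ : K0 4 → ConvexBody (Fin m → ℝ), IsMinkowskiValuation Φ ∧ IsInvariant ρ Φ ∧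
      Continuous Φ ∧ ∃ K : K0 4, (Φ K : Set (Fin m → ℝ)) ≠ {0} := by
  refine ⟨Module.finrank ℝ Wt, rho, ?_, rho_irred, ?_, ?_, fun K => pt0 (eqv (zeta K)), ?_, ?_, ?_,
    ball0, ?_⟩
  · intro l w
    exact poly_rho0 (l.comp eqv.toLinearMap) (eqv.symm w)
  · refine ⟨eqv ⟨phi0, psi_mem _ _⟩, fun h => ?_, fun g h0 h1 => ?_, fun g h0 => ?_⟩
    · exact phi0_ne (congrArg Subtype.val (eqv.map_eq_zero_iff.1 h))
    · rw [rho_apply, LinearEquiv.symm_apply_apply]
      congr 1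
      exact Subtype.ext (phi0_fixed g h0 h1)
    · rw [rho_apply, LinearEquiv.symm_apply_apply, ← map_smul]
      congr 1
      apply Subtype.ext
      rw [rho0_coe]
      change R g phi0 = _ • phi0
      rw [phi0_diag g h0, Fin.prod_univ_four]
      simp
  · rintro ⟨p, q, w, hw, hN, hT⟩
    let k : G4 := ⟨diagonal ![1, 2, 1 / 2, 1], by
      rw [det_diagonal, Fin.prod_univ_four]; simp⟩
    have tr : ∀ g : G4, rho g w = w → R g (eqv.symm w : Wt) = (eqv.symm w : Wt) := by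
      intro g h
      rw [rho_apply] at h
      have := congrArg eqv.symm h
      rw [LinearEquiv.symm_apply_apply] at this
      exact congrArg Subtype.val this
    have h0 := not_adm (eqv.symm w).2 (fun g h0 h1 => tr g (hN g h0 h1)) k rfl (tr k (by
      rw [hT k (fun i j hij => diagonal_apply_ne _ hij), Fin.prod_univ_four]
      simp [k]))
    have h2 : eqv.symm w = 0 := Subtype.ext h0
    exact hw (by simpa using h2)
  · intro K L U I h h'
    rw [pt0_add, pt0_add, ← map_add, ← map_add, zeta_val K L U I h h']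
  · intro g K M h
    rw [pt0_coe, pt0_coe, Set.image_singleton, rho_apply, LinearEquiv.symm_apply_apply,
      zeta_equiv g K M h]
  · exact pt0_cont.comp (eqv.toLinearMap.continuous_of_finiteDimensional.comp zeta_cont)
  · rw [pt0_coe]
    intro h
    exact zeta_ne ball0 (eqv.map_eq_zero_iff.1 (Set.singleton_injective h))

end

end Pool.Agent.Results.MP_05553e_gt.CurvatureValuation
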